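import Mathlib

/-!
# The proposed bound for solutions of `σ₃ = σₙ` fails for every `n ≥ 11`

For `n = k + 4` the tuple `(1,…,1,2,n-1,c,X)` (with `k` ones),
`c = (3k+7)(k+2)/2`, `X = (27k⁴+242k³+783k²+1060k+504)/12`, solves `σ₃ = σₙ`, and its common
value exceeds the proposed bound by `(27/4) k(k-1)⋯(k-6)`.
-/

namespace Pool.Agent.Results.MP_c4e411_nt.BoundFails

/-- The proposed upper bound for the common value `m` of `σ₃` and `σₙ`. -/
def mBound (n : ℕ) : ℚ :=
  (3021 * (n : ℚ) ^ 6 - 77575 * (n : ℚ) ^ 5 + 920361 * (n : ℚ) ^ 4 - 6235705 * (n : ℚ) ^ 3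
    + 24764202 * (n : ℚ) ^ 2 - 53664304 * (n : ℚ) + 48986640) / 12

/-- `σ_i(x_1, …, x_n)`, the `i`-th elementary symmetric polynomial of the entries of `x`. -/
def sigma {n : ℕ} (i : ℕ) (x : Fin n → ℕ) : ℕ := (Finset.univ.val.map x).esymm i

lemma esymm_cons (a : ℕ) (s : Multiset ℕ) (n : ℕ) :
    (a ::ₘ s).esymm (n + 1) = s.esymm (n + 1) + a * s.esymm n := by
  simp only [Multiset.esymm, Multiset.powersetCard_cons, Multiset.map_add, Multiset.sum_add,
    Multiset.map_map, Function.comp_def, Multiset.prod_cons, Multiset.sum_map_mul_left]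

lemma esymm_zero' (s : Multiset ℕ) : s.esymm 0 = 1 := by
  simp [Multiset.esymm]

lemma esymm_empty (n : ℕ) : (0 : Multiset ℕ).esymm (n + 1) = 0 := by
  simp [Multiset.esymm, Multiset.powersetCard_zero_right]

lemma esymm_card (s : Multiset ℕ) : s.esymm (Multiset.card s) = s.prod := by
  simp [Multiset.esymm, Multiset.powersetCard_self]

lemma choose3 (k : ℕ) : (k.choose 3 : ℚ) = k * (k - 1) * (k - 2) / 6 := by
  induction k with
  | zero => simp
  | succ k ih =>
    rw [Nat.choose_succ_succ' k 2]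
    push_cast
    rw [ih, Nat.cast_choose_two]
    ring

lemma choose2 (k : ℕ) : (k.choose 2 : ℚ) = k * (k - 1) / 2 := Nat.cast_choose_two ℚ k

lemma esymm_replicate (k : ℕ) (s : Multiset ℕ) :
    (Multiset.replicate k 1 + s).esymm 1 = k + s.esymm 1 ∧
    (Multiset.replicate k 1 + s).esymm 2 = k.choose 2 + k * s.esymm 1 + s.esymm 2 ∧
    (Multiset.replicate k 1 + s).esymm 3 =
      k.choose 3 + k.choose 2 * s.esymm 1 + k * s.esymm 2 + s.esymm 3 := by
  induction k with
  | zero => simp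
  | succ k ih =>
    obtain ⟨h1, h2, h3⟩ := ih
    rw [Multiset.replicate_succ, Multiset.cons_add]
    refine ⟨?_, ?_, ?_⟩
    · rw [esymm_cons, h1, esymm_zero']; ring
    · rw [esymm_cons, h2, h1, Nat.choose_succ_succ' k 1, Nat.choose_one_right]; ring
    · rw [esymm_cons, h3, h2, Nat.choose_succ_succ' k 2, Nat.choose_succ_succ' k 1,
        Nat.choose_one_right]; ring

lemma esymm_four (a b c d : ℕ) :
    (a ::ₘ b ::ₘ c ::ₘ d ::ₘ (0 : Multiset ℕ)).esymm 1 = a + b + c + d ∧
    (a ::ₘ b ::ₘ c ::ₘ d ::ₘ (0 : Multiset ℕ)).esymm 2 =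
      a * b + a * c + a * d + b * c + b * d + c * d ∧
    (a ::ₘ b ::ₘ c ::ₘ d ::ₘ (0 : Multiset ℕ)).esymm 3 =
      a * b * c + a * b * d + a * c * d + b * c * d := by
  refine ⟨?_, ?_, ?_⟩ <;>
  · simp only [esymm_cons, esymm_zero', esymm_empty]
    try ring

/-- The list of entries. -/
def L (k c X : ℕ) : List ℕ := List.replicate k 1 ++ [2, k + 3, c, X]

lemma L_length (k c X : ℕ) : (L k c X).length = k + 4 := by simp [L]

lemma L_coe (k c X : ℕ) :
    ((L k c X : List ℕ) : Multiset ℕ) =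
      Multiset.replicate k 1 + (2 ::ₘ (k + 3) ::ₘ c ::ₘ X ::ₘ 0) := by
  simp only [L, ← Multiset.coe_add, Multiset.coe_replicate]
  rfl

lemma even_c (k : ℕ) : ∃ c : ℕ, 2 * c = (3 * k + 7) * (k + 2) := by
  rcases Nat.even_or_odd' k with ⟨m, rfl | rfl⟩
  · exact ⟨(3 * (2 * m) + 7) * (m + 1), by ring⟩
  · exact ⟨(3 * m + 5) * (2 * m + 1 + 2), by ring⟩

lemma div_X (k : ℕ) :
    ∃ X : ℕ, 12 * X = 27 * k ^ 4 + 242 * k ^ 3 + 783 * k ^ 2 + 1060 * k + 504 := by
  have h : (27 * k ^ 4 + 242 * k ^ 3 + 783 * k ^ 2 + 1060 * k + 504) % 12 = 0 := by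
    have hk : k % 12 < 12 := Nat.mod_lt _ (by norm_num)
    rw [Nat.add_mod, Nat.add_mod (27 * k ^ 4 + 242 * k ^ 3 + 783 * k ^ 2),
      Nat.add_mod (27 * k ^ 4 + 242 * k ^ 3), Nat.add_mod (27 * k ^ 4), Nat.mul_mod 27,
      Nat.mul_mod 242, Nat.mul_mod 783, Nat.mul_mod 1060, Nat.pow_mod, Nat.pow_mod k 3,
      Nat.pow_mod k 2]
    generalize k % 12 = r at hk
    interval_cases r <;> rfl
  exact ⟨_, Nat.mul_div_cancel' (Nat.dvd_of_mod_eq_zero h)⟩

/-- For every `n ≥ 11` there is a solution whose common value exceeds the proposed bound. -/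
theorem result : ∀ n : ℕ, 11 ≤ n → ∃ x : Fin n → ℕ, Monotone x ∧ (∀ i, 0 < x i) ∧
    sigma 3 x = sigma n x ∧ sigma n x = ∏ i, x i ∧ mBound n < (sigma n x : ℚ) := by
  intro n hn
  obtain ⟨k, rfl⟩ : ∃ k, n = k + 4 := ⟨n - 4, by omega⟩
  have hk : 7 ≤ k := by omega
  obtain ⟨c, hc⟩ := even_c k
  obtain ⟨X, hX⟩ := div_X k
  have hlen := L_length k c X
  let x : Fin (k + 4) → ℕ := fun i => (L k c X).get (Fin.cast hlen.symm i)
  have hofFn : List.ofFn x = L k c X := by
    have : List.ofFn (fun i : Fin (L k c X).length => (L k c X).get i) = L k c X :=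
      List.ofFn_get _
    rw [← this]
    exact (List.ofFn_congr hlen.symm x)
  have hval : (Finset.univ.val.map x) = ((L k c X : List ℕ) : Multiset ℕ) := by
    rw [Fin.univ_val_map, hofFn]
  have hprod : ∏ i, x i = 2 * (k + 3) * c * X := by
    rw [Finset.prod, hval, L_coe]
    simp [Multiset.prod_add, Multiset.prod_replicate]
    ring
  have hcard : (Finset.univ.val.map x).card = k + 4 := by simp
  have hsn : sigma (k + 4) x = ∏ i, x i := by
    have h := esymm_card (Finset.univ.val.map x)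
    rw [hcard] at h
    exact h
  have hc' : (c : ℚ) = (3 * k + 7) * (k + 2) / 2 := by
    have : ((2 * c : ℕ) : ℚ) = (((3 * k + 7) * (k + 2) : ℕ) : ℚ) := by rw [hc]
    push_cast at this
    linarith
  have hX' : (X : ℚ) = (27 * k ^ 4 + 242 * k ^ 3 + 783 * k ^ 2 + 1060 * k + 504) / 12 := by
    have : ((12 * X : ℕ) : ℚ) =
        ((27 * k ^ 4 + 242 * k ^ 3 + 783 * k ^ 2 + 1060 * k + 504 : ℕ) : ℚ) := by rw [hX]
    push_cast at this
    linarith
  have hs3 : sigma 3 x = 2 * (k + 3) * c * X := by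
    unfold sigma
    rw [hval, L_coe, (esymm_replicate k _).2.2, (esymm_four _ _ _ _).1,
      (esymm_four _ _ _ _).2.1, (esymm_four _ _ _ _).2.2]
    have : ((k.choose 3 + k.choose 2 * (2 + (k + 3) + c + X) +
        k * (2 * (k + 3) + 2 * c + 2 * X + (k + 3) * c + (k + 3) * X + c * X) +
        (2 * (k + 3) * c + 2 * (k + 3) * X + 2 * c * X + (k + 3) * c * X) : ℕ) : ℚ) =
        ((2 * (k + 3) * c * X : ℕ) : ℚ) := by
      push_cast
      rw [choose3, choose2, hc', hX']
      ring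
    exact_mod_cast this
  refine ⟨x, ?_, ?_, ?_, hsn, ?_⟩
  · have hsort : (L k c X).Pairwise (· ≤ ·) := by
      have h1 : k + 3 ≤ c := by nlinarith
      have h2 : c ≤ X := by nlinarith [pow_pos (show 0 < k by omega) 3, pow_pos (show 0 < k by omega) 4]
      simp only [L, List.pairwise_append, List.pairwise_replicate, List.pairwise_cons,
        List.mem_cons, List.mem_replicate, List.not_mem_nil]
      refine ⟨by simp, ⟨?_, ?_, ?_, ?_⟩, ?_⟩
      · rintro a (rfl | rfl | rfl | h) <;> first | omega | simp at h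
      · rintro a (rfl | rfl | h) <;> first | omega | simp at h
      · rintro a (rfl | h) <;> first | omega | simp at h
      · simp
      · rintro a ⟨_, rfl⟩ b (rfl | rfl | rfl | rfl | h) <;> first | omega | simp at h
    intro i j hij
    rcases hij.lt_or_eq with h | h
    · exact List.pairwise_iff_get.mp hsort _ _ (by simpa using h)
    · rw [h]
  · intro i
    have hmem : x i ∈ L k c X := List.get_mem _ _
    have h1 : 0 < c := by nlinarith
    have h2 : 0 < X := by omega
    simp only [L, List.mem_append, List.mem_replicate, List.mem_cons, List.not_mem_nil,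
      or_false] at hmem
    rcases hmem with ⟨_, h⟩ | h | h | h | h <;> omega
  · rw [hs3, hsn, hprod]
  · rw [hsn, hprod]
    obtain ⟨j, rfl⟩ : ∃ j, k = j + 7 := ⟨k - 7, by omega⟩
    unfold mBound
    push_cast at hc' hX' ⊢
    rw [hc', hX']
    have hpos : (0 : ℚ) < 27 / 4 * (((j : ℚ) + 7) * (j + 6) * (j + 5) * (j + 4) * (j + 3) *
      (j + 2) * (j + 1)) := by positivity
    rw [← sub_pos]
    convert hpos using 1
    ring

end Pool.Agent.Results.MP_c4e411_nt.BoundFails
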